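import Pool.Agent.Y382.NCH.Step

/-!
# The main step, conclusion
-/

set_option autoImplicit false

namespace Pool.Agent.Y382.NCH

universe u

theorem step (hCOM : S_COM.{u}) (hTRA : S_TRA.{u}) (hSEC : S_SEC.{u}) : S_STEP.{u} := by
  intro G _ _ M _ g hodd hgen hfull a b hab
  classical
  set c := a * b⁻¹ with hc
  -- it is enough to treat `c` and `1`
  suffices hN : Near G c 1 by
    have := hTRA G c 1 1 b hN
    simpa [hc] using this
  let π := QuotientGroup.mk' M
  have hM : ∀ g, g ∈ M ↔ π g = 1 := fun a => (QuotientGroup.eq_one_iff a).symm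
  obtain ⟨φ, hφ1, hφ⟩ := transversal (hfull 1 1 (by simp [Subgroup.one_mem]))
  -- sections
  obtain ⟨x, hx, x1⟩ : ∃ x : G ⧸ M → G, (∀ i, π (x i) = i) ∧ x 1 = 1 := by
    refine ⟨fun i => if i = 1 then 1 else i.out, fun i => ?_, by simp⟩
    by_cases h : i = 1
    · simp only [h, if_true, map_one]
    · simp only [h, if_false]
      exact QuotientGroup.out_eq' i
  have ext : ∀ d : M, d ∈ commutator M → Near G (d : G) 1 := by
    intro d hd
    have h1 : Near M d 1 := hfull d 1 (by simpa using hd)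
    have := ext_near M hodd π hM x hx x1 φ hφ d 1 h1
    simpa using this
  set p := Nat.card (G ⧸ M) with hp
  have hq1 : ∀ z : G ⧸ M, z ^ p = 1 := fun z => pow_card_eq_one'
  by_cases hp1 : p = 1
  · -- trivial quotient
    have htriv : ∀ z : G, z ∈ M := by
      intro z
      rw [hM]
      have := hq1 (π z)
      rwa [hp1, pow_one] at this
    obtain ⟨t, ht, d, hd, hcd⟩ := hCOM G M 1 (fun z => ⟨z, htriv z, 0, by simp⟩) c hab
    have : c = d := by rw [hcd]; group
    rw [this]
    exact ext d hd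
  · obtain ⟨m, hm⟩ := hodd
    have hm1 : 1 ≤ m := by omega
    set h := g ^ (p - 2) with hh
    -- every element is `m h ^ k`
    have hπh : ∀ j : ℤ, π (h ^ (j * m)) = (π g) ^ j := by
      intro j
      have e1 : (π g) ^ (p : ℤ) = 1 := by rw [zpow_natCast]; exact hq1 _
      have e2 : ((p - 2 : ℕ) : ℤ) = (p : ℤ) - 2 := by omega
      rw [map_zpow, hh, map_pow, ← zpow_natCast, ← zpow_mul, e2]
      have e3 : ((p : ℤ) - 2) * (j * m) = (p : ℤ) * (j * m - j) + j := by
        have : (p : ℤ) = 2 * m + 1 := by exact_mod_cast hm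
        rw [this]
        ring
      rw [e3, zpow_add, zpow_mul, e1, one_zpow, one_mul]
    have hall : ∀ z : G, ∃ n ∈ M, ∃ k : ℤ, z = n * h ^ k := by
      intro z
      obtain ⟨j, hj⟩ := hgen (π z)
      refine ⟨z * (h ^ (j * m))⁻¹, ?_, j * m, by group⟩
      rw [hM, map_mul, map_inv, hπh]
      have hj' : (π g) ^ j = π z := hj
      rw [hj', mul_inv_cancel]
    obtain ⟨t, ht, d, hd, hcd⟩ := hCOM G M h hall c hab
    by_cases hth : t * h * t⁻¹ * h⁻¹ = 1
    · have : c = d := by rw [hcd, hth, one_mul]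
      rw [this]
      exact ext d hd
    by_cases hc1 : c = 1
    · rw [hc1]
      simpa using ext 1 (Subgroup.one_mem _)
    obtain ⟨x', y', hx', hy', x1', y1', hs1, hs2⟩ := hSEC G (G ⧸ M) π g t ((hM t).1 ht) hgen (by omega)
    set W := g * (t * h * t⁻¹ * h⁻¹) * g⁻¹ with hW
    have hgp : g ^ (p - 1) = g * h := by
      rw [hh, ← pow_succ']
      congr 1
      omega
    have hWs : x' (π g)⁻¹ * y' (π g) = W := by
      rw [hs2, ← hp, hgp, hW, hh]
      group
    have hcomM : t * h * t⁻¹ * h⁻¹ ∈ M := by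
      rw [hM, map_mul, map_mul, map_mul, map_inv, map_inv, (hM t).1 ht]
      group
    have hWM : W ∈ M := Subgroup.Normal.conj_mem inferInstance _ hcomM g
    have hcM : c ∈ M := by rw [hcd]; exact M.mul_mem hcomM d.2
    have hcM' : g * c * g⁻¹ ∈ M := Subgroup.Normal.conj_mem inferInstance _ hcM g
    have hcom : (⟨g * c * g⁻¹, hcM'⟩ : M) * (⟨W, hWM⟩ : M)⁻¹ ∈ commutator M := by
      have h1 : (commutator M) ≤ (commutator M).comap (MulAut.conjNormal (H := M) (W * g)).toMonoidHom :=
        Subgroup.characteristic_iff_le_comap.1 inferInstance _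
      have h2 := h1 hd
      have h3 : (⟨g * c * g⁻¹, hcM'⟩ : M) * (⟨W, hWM⟩ : M)⁻¹ = MulAut.conjNormal (H := M) (W * g) d := by
        apply Subtype.ext
        rw [MulAut.conjNormal_apply]
        simp only [Subgroup.coe_mul, Subgroup.coe_inv]
        rw [hcd, hW]
        group
      rw [h3]
      exact h2
    have hnear := hfull _ _ hcom
    obtain ⟨ψ, g₁, hψ1, hg1, hg2, hψ⟩ := normalise _ _ (fun h0 => hc1 (by
      have := congrArg Subtype.val h0
      simpa using this)) (fun h0 => hth (by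
      have := congrArg Subtype.val h0
      simpa [hW] using this)) hnear
    have hπg : π g ≠ 1 := by
      intro h0
      apply hp1
      rw [hp, Nat.card_eq_one_iff_unique]
      refine ⟨⟨fun i j => ?_⟩, ⟨1⟩⟩
      have key : ∀ i : G ⧸ M, i = 1 := by
        intro i
        obtain ⟨k, hk⟩ := hgen i
        have hk' : (π g) ^ k = i := hk
        rw [← hk', h0, one_zpow]
      rw [key i, key j]
    have hfin := switch M ⟨m, hm⟩ π hM x' y' hx' hy' x1' y1' (π g) hπg hs1 φ ψ hφ hφ1 hψ1 g₁ ⟨W, hWM⟩ hg1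
      hWs.symm (by convert hψ)
    rw [hg2] at hfin
    have := hTRA G _ _ g⁻¹ g hfin
    have e1 : g⁻¹ * (g * c * g⁻¹) * g = c := by group
    have e2 : g⁻¹ * 1 * g = (1 : G) := by group
    rw [e2] at this
    simpa [mul_assoc] using this

end Pool.Agent.Y382.NCH
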