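import Pool.Agent.Y382.NCH.Stm

/-!
# The main step: extension by a cyclic quotient of odd order
-/

set_option autoImplicit false

namespace Pool.Agent.Y382.NCH

universe u

section basic

variable {G Q : Type u} [Group G] [Group Q]

theorem sq_inj [Finite G] (hodd : Odd (Nat.card G)) {a b : G} (h : a * a = b * b) : a = b := by
  have hc : (Nat.card G).Coprime 2 := Nat.coprime_two_right.2 hodd
  have := (Nat.Coprime.pow_left_bijective (G := G) hc).1
  exact this (by simpa [pow_two] using h)

open Classical in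
/-- The permutation `x_i ↦ x_(i r)`. -/
noncomputable def rho (π : G →* Q) (x : Q → G) (hx : ∀ i, π (x i) = i) (r : Q) : Equiv.Perm G where
  toFun g := if g = x (π g) then x (π g * r) else g
  invFun g := if g = x (π g) then x (π g * r⁻¹) else g
  left_inv g := by
    by_cases h : g = x (π g)
    · have e : (if g = x (π g) then x (π g * r) else g) = x (π g * r) := if_pos h
      simp only [e, hx, if_true, mul_inv_cancel_right]
      exact h.symm
    · have e : (if g = x (π g) then x (π g * r) else g) = g := if_neg h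
      simp only [e]
      exact if_neg h
  right_inv g := by
    by_cases h : g = x (π g)
    · have e : (if g = x (π g) then x (π g * r⁻¹) else g) = x (π g * r⁻¹) := if_pos h
      simp only [e, hx, if_true, inv_mul_cancel_right]
      exact h.symm
    · have e : (if g = x (π g) then x (π g * r⁻¹) else g) = g := if_neg h
      simp only [e]
      exact if_neg h

theorem rho_x (π : G →* Q) (x : Q → G) (hx : ∀ i, π (x i) = i) (r i : Q) : rho π x hx r (x i) = x (i * r) := by
  classical
  show (if x i = x (π (x i)) then x (π (x i) * r) else x i) = _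
  rw [hx, if_pos rfl]

theorem rho_n (π : G →* Q) (x : Q → G) (hx : ∀ i, π (x i) = i) (r : Q) (g : G) (h : g ≠ x (π g)) :
    rho π x hx r g = g := if_neg h

theorem inj_fib {M : Subgroup G} (π : G →* Q) (x : Q → G) (nn : G → M)
    (hnn : ∀ g, (nn g : G) = g * (x (π g))⁻¹) (F : Q → M → G) (w : Q → Q) (hw : Function.Injective w)
    (hF : ∀ i, Function.Injective (F i)) (hFu : ∀ i n, π (F i n) = w i) :
    Function.Injective (fun g => F (π g) (nn g)) := by
  intro g g' h
  simp only at h
  have hp : π g = π g' := by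
    apply hw
    rw [← hFu (π g) (nn g), ← hFu (π g') (nn g'), h]
  rw [hp] at h
  have h2 := hF _ h
  have h3 : (nn g : G) = nn g' := by rw [h2]
  rw [hnn, hnn, hp] at h3
  exact mul_right_cancel h3

end basic

section asm

variable {G Q : Type u} [Group G] [Group Q] [Finite G] [Finite Q] (M : Subgroup G)

open Classical in
theorem asm (hoddQ : Odd (Nat.card Q)) (π : G →* Q) (hM : ∀ g, g ∈ M ↔ π g = 1) (x y : Q → G)
    (hx : ∀ i, π (x i) = i) (hy : ∀ i, π (y i) = i) (x1 : x 1 = 1) (y1 : y 1 = 1)
    (φ ψ : Equiv.Perm M) (hφ : Function.Injective (fun n : M => n * φ n)) (g₁ b : M)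
    (hψ : Function.Injective (fun n : M => if n = g₁ then b else n * ψ n)) :
    ∃ (fb : Equiv.Perm G) (sb : G → G), Function.Injective sb ∧ (∀ g : G, g ≠ (g₁ : G) → g * fb g = sb g) ∧ sb g₁ = b ∧
      (g₁ : G) * fb g₁ = (g₁ * ψ g₁ : M) ∧
      (φ 1 = 1 → ψ 1 = 1 → ∀ i, fb (x i) = y i) := by
  have hmem : ∀ g, g * (x (π g))⁻¹ ∈ M := fun g => by
    rw [hM, map_mul, map_inv, hx, mul_inv_cancel]
  let nn : G → M := fun g => ⟨g * (x (π g))⁻¹, hmem g⟩
  have hnn : ∀ g, (nn g : G) = g * (x (π g))⁻¹ := fun g => rfl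
  have hπM : ∀ n : M, π n = 1 := fun n => (hM n).1 n.2
  let Φ : Q → Equiv.Perm M := fun i => if i = 1 then ψ else φ
  let fb : G → G := fun g => (x (π g))⁻¹ * (Φ (π g) (nn g) : G) * x (π g) * y (π g)
  let S : Q → M → M := fun i n => if i = 1 then (if n = g₁ then b else n * ψ n) else n * φ n
  let sb : G → G := fun g => (S (π g) (nn g) : G) * (x (π g) * y (π g))
  have hfb : Function.Injective fb := by
    refine inj_fib π x nn hnn (fun i n => (x i)⁻¹ * (Φ i n : G) * x i * y i) id (fun _ _ h => h) ?_ ?_
    · intro i n n' h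
      simp only at h
      have h2 := mul_left_cancel (mul_right_cancel (mul_right_cancel h))
      exact (Φ i).injective (Subtype.ext h2)
    · intro i n
      simp only [map_mul, map_inv, hx, hy, hπM, id]
      group
  have hS : ∀ i, Function.Injective (S i) := by
    intro i
    by_cases h : i = 1
    · simp only [S, h, if_true]
      exact hψ
    · simp only [S, h, if_false]
      exact hφ
  have hsb : Function.Injective sb := by
    refine inj_fib π x nn hnn (fun i n => (S i n : G) * (x i * y i)) (fun i => i * i)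
      (fun i j h => sq_inj hoddQ h) ?_ ?_
    · intro i n n' h
      simp only at h
      exact hS i (Subtype.ext (mul_right_cancel h))
    · intro i n
      simp only [map_mul, hx, hy, hπM, one_mul]
  have hg1 : nn g₁ = g₁ := by
    apply Subtype.ext
    rw [hnn, hπM, x1, inv_one, mul_one]
  refine ⟨Equiv.ofBijective fb (Finite.injective_iff_bijective.1 hfb), sb, hsb, ?_, ?_, ?_, ?_⟩
  · intro g hg
    show g * fb g = sb g
    have hS' : S (π g) (nn g) = nn g * Φ (π g) (nn g) := by
      by_cases h : π g = 1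
      · have hne : nn g ≠ g₁ := by
          intro h2
          apply hg
          rw [← h2, hnn, h, x1, inv_one, mul_one]
        simp only [S, Φ, h, if_true, if_neg hne]
      · simp only [S, Φ, h, if_false]
    simp only [fb, sb, hS', Subgroup.coe_mul, hnn]
    group
  · show sb g₁ = b
    simp only [sb, hg1, hπM, x1, y1, S, if_true, mul_one]
  · show (g₁ : G) * fb g₁ = _
    simp only [fb, hg1, hπM, x1, y1, Φ, if_true, mul_one, inv_one, one_mul, Subgroup.coe_mul]
  · intro h1 h2 i
    show fb (x i) = y i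
    have hn1 : nn (x i) = 1 := by
      apply Subtype.ext
      rw [hnn, hx, mul_inv_cancel, Subgroup.coe_one]
    have hΦ : Φ i 1 = 1 := by
      by_cases h : i = 1
      · simp only [Φ, h, if_true, h2]
      · simp only [Φ, h, if_false, h1]
    simp only [fb, hx, hn1, hΦ, Subgroup.coe_one]
    group

/-- Extension without a switch. -/
theorem ext_near (hoddQ : Odd (Nat.card Q)) (π : G →* Q) (hM : ∀ g, g ∈ M ↔ π g = 1) (x : Q → G)
    (hx : ∀ i, π (x i) = i) (x1 : x 1 = 1) (φ : Equiv.Perm M) (hφ : Function.Injective (fun n : M => n * φ n))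
    (a b : M) (h : Near M a b) : Near G a b := by
  classical
  obtain ⟨ψ, g₁, h1, h2⟩ := h
  obtain ⟨fb, sb, hs, e1, e2, e3, -⟩ := asm M hoddQ π hM x x hx hx x1 x1 φ ψ hφ g₁ b (by convert h2.1)
  refine ⟨fb, g₁, by rw [e3, h1], ?_⟩
  have hF : (fun z : G => if z = g₁ then (b : G) else z * fb z) = sb := by
    funext z
    by_cases hz : z = g₁
    · rw [if_pos hz, hz, e2]
    · rw [if_neg hz, e1 z hz]
  have := Finite.injective_iff_bijective.1 hs
  rw [← hF] at this
  convert this

/-- The switch. -/
theorem switch (hoddQ : Odd (Nat.card Q)) (π : G →* Q) (hM : ∀ g, g ∈ M ↔ π g = 1) (x y : Q → G)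
    (hx : ∀ i, π (x i) = i) (hy : ∀ i, π (y i) = i) (x1 : x 1 = 1) (y1 : y 1 = 1) (q : Q) (hq : q ≠ 1)
    (h1 : ∀ i, i ≠ q⁻¹ → x i * y (i * q * q) = x (i * q) * y (i * q))
    (φ ψ : Equiv.Perm M) (hφ : Function.Injective (fun n : M => n * φ n)) (hφ1 : φ 1 = 1) (hψ1 : ψ 1 = 1)
    (g₁ b : M) (hg1 : g₁ ≠ 1) (hb : (b : G) = x q⁻¹ * y q)
    (hψ : Function.Injective (fun n : M => (open Classical in if n = g₁ then b else n * ψ n))) :
    Near G ((g₁ * ψ g₁ : M) : G) 1 := by
  classical
  obtain ⟨fb, sb, hs, e1, e2, e3, e4⟩ := asm M hoddQ π hM x y hx hy x1 y1 φ ψ hφ g₁ b (by convert hψ)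
  have e4 := e4 hφ1 hψ1
  have hπg : π (g₁ : G) = 1 := (hM _).1 g₁.2
  have hg1' : (g₁ : G) ≠ 1 := fun h => hg1 (Subtype.ext h)
  have hgx : (g₁ : G) ≠ x (π (g₁ : G)) := by rw [hπg, x1]; exact hg1'
  have hxg : ∀ i, x i ≠ g₁ := by
    intro i h
    have := congrArg π h
    rw [hx, hπg] at this
    rw [this, x1] at h
    exact hg1' h.symm
  have hsx : ∀ i, sb (x i) = x i * y i := fun i => by rw [← e1 _ (hxg i), e4]
  refine ⟨(rho π x hx (q * q)).trans fb, g₁, ?_, ?_⟩
  · rw [Equiv.trans_apply, rho_n π x hx _ _ hgx, e3]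
  · have hF : (fun z : G => if z = g₁ then (1 : G) else z * ((rho π x hx (q * q)).trans fb) z) =
        sb ∘ (rho π x hx q) ∘ (Equiv.swap (g₁ : G) (x q⁻¹)) := by
      funext z
      simp only [Function.comp_apply, Equiv.trans_apply]
      by_cases hz : z = g₁
      · rw [if_pos hz, hz, Equiv.swap_apply_left, rho_x, inv_mul_cancel, hsx, x1, y1, one_mul]
      · rw [if_neg hz]
        by_cases hz2 : z = x q⁻¹
        · rw [hz2, Equiv.swap_apply_right, rho_n π x hx _ _ hgx, e2, rho_x, e4, hb, ← mul_assoc,
            inv_mul_cancel, one_mul]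
        · rw [Equiv.swap_apply_of_ne_of_ne hz hz2]
          by_cases hz3 : z = x (π z)
          · obtain ⟨i, hi⟩ : ∃ i, z = x i := ⟨_, hz3⟩
            have hne : i ≠ q⁻¹ := by
              intro h
              rw [h] at hi
              exact hz2 hi
            have h3 := h1 _ hne
            rw [hi, rho_x, rho_x, e4, hsx, ← mul_assoc, ← h3]
          · rw [rho_n π x hx _ _ hz3, rho_n π x hx _ _ hz3, e1 z hz]
    have hinj : Function.Injective (fun z : G => if z = g₁ then (1 : G) else z * ((rho π x hx (q * q)).trans fb) z) := by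
      rw [hF]
      exact hs.comp ((rho π x hx q).injective.comp (Equiv.swap _ _).injective)
    have := Finite.injective_iff_bijective.1 hinj
    convert this

end asm

/-- A chain through the cell `(1, 1)`. -/
theorem normalise {M : Type u} [Group M] [Finite M] (a b : M) (ha : a ≠ 1) (hb : b ≠ 1) (h : Near M a b) :
    ∃ (ψ : Equiv.Perm M) (g₁ : M), ψ 1 = 1 ∧ g₁ ≠ 1 ∧ g₁ * ψ g₁ = a ∧
      Function.Injective (fun n : M => (open Classical in if n = g₁ then b else n * ψ n)) := by
  classical
  obtain ⟨θ, g, h1, h2⟩ := h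
  obtain ⟨z, hz⟩ := h2.2 1
  have hzg : z ≠ g := by
    intro h
    rw [h] at hz
    simp only [if_true] at hz
    exact hb hz
  simp only [if_neg hzg] at hz
  refine ⟨((Equiv.mulRight z).trans θ).trans (Equiv.mulLeft z), g * z⁻¹, ?_, ?_, ?_, ?_⟩
  · simp only [Equiv.trans_apply, Equiv.coe_mulRight, Equiv.coe_mulLeft, one_mul, hz]
  · intro h
    have : g = z := by
      have := mul_eq_one_iff_eq_inv.1 h
      simpa using this
    exact hzg this.symm
  · simp only [Equiv.trans_apply, Equiv.coe_mulRight, Equiv.coe_mulLeft, inv_mul_cancel_right]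
    rw [← mul_assoc, inv_mul_cancel_right, h1]
  · intro n n' hn
    simp only [Equiv.trans_apply, Equiv.coe_mulRight, Equiv.coe_mulLeft] at hn
    have key : ∀ m : M, (if m = g * z⁻¹ then b else m * (z * θ (m * z))) =
        (if m * z = g then b else (m * z) * θ (m * z)) := by
      intro m
      by_cases hm : m = g * z⁻¹
      · rw [if_pos hm, if_pos (by rw [hm, inv_mul_cancel_right])]
      · rw [if_neg hm, if_neg (fun h => hm (by rw [← h, mul_inv_cancel_right])), mul_assoc]
    have hn' : (if n * z = g then b else (n * z) * θ (n * z)) = (if n' * z = g then b else (n' * z) * θ (n' * z)) := by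
      rw [← key n, ← key n']
      convert hn
    have := h2.1 (a₁ := n * z) (a₂ := n' * z) (by convert hn')
    exact mul_right_cancel this

theorem transversal {M : Type u} [Group M] [Finite M] (h : Near M 1 1) :
    ∃ (φ : Equiv.Perm M), φ 1 = 1 ∧ Function.Injective (fun n : M => n * φ n) := by
  classical
  obtain ⟨θ, g, h1, h2⟩ := h
  have hs : Function.Injective (fun n : M => n * θ n) := by
    have : (fun n : M => n * θ n) = (fun n : M => if n = g then 1 else n * θ n) := by
      funext n
      by_cases hn : n = g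
      · rw [if_pos hn, hn, h1]
      · rw [if_neg hn]
    rw [this]
    convert h2.1
  refine ⟨((Equiv.mulRight g).trans θ).trans (Equiv.mulLeft g), ?_, ?_⟩
  · simp only [Equiv.trans_apply, Equiv.coe_mulRight, Equiv.coe_mulLeft, one_mul, h1]
  · intro n n' hn
    simp only [Equiv.trans_apply, Equiv.coe_mulRight, Equiv.coe_mulLeft] at hn
    have := hs (a₁ := n * g) (a₂ := n' * g) (by simpa only [mul_assoc] using hn)
    exact mul_right_cancel this

end Pool.Agent.Y382.NCH
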