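import Mathlib

/-!
# Chains of rank `n - 1` in Cayley tables: statements
-/

set_option autoImplicit false

namespace Pool.Agent.Y382.NCH

universe u v

open Classical in
/-- There is a chain `θ` of the Cayley table of `G` such that changing the symbol `a` of one cell `(g, θ g)` to `b` makes
all symbols different. For `a ≠ b` the symbol `b` is missing in the chain and `a` occurs twice; for `a = b` the chain is a
transversal. -/
def Near (G : Type u) [Group G] (a b : G) : Prop :=
  ∃ (θ : Equiv.Perm G) (g : G), g * θ g = a ∧ Function.Bijective (fun x : G => if x = g then b else x * θ x)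

/-- All chains of this kind which are possible modulo the commutator subgroup exist. -/
def Full (G : Type u) [Group G] : Prop := ∀ a b : G, a * b⁻¹ ∈ commutator G → Near G a b

/-- Translations. -/
def S_TRA : Prop := ∀ (G : Type u) [Group G] (a b r s : G), Near G a b → Near G (r * a * s) (r * b * s)

/-- Necessity of the condition. -/
def S_NEC : Prop := ∀ (G : Type u) [Group G] [Finite G] (a b : G), Near G 1 1 → Near G a b → a * b⁻¹ ∈ commutator G

/-- Commutators with a generator of the quotient. -/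
def S_COM : Prop := ∀ (G : Type u) [Group G] (M : Subgroup G) [M.Normal] (h : G),
  (∀ x : G, ∃ m ∈ M, ∃ k : ℤ, x = m * h ^ k) →
  ∀ c ∈ commutator G, ∃ t ∈ M, ∃ d : M, d ∈ commutator M ∧ c = t * h * t⁻¹ * h⁻¹ * d

/-- The sections. -/
def S_SEC : Prop := ∀ (G : Type u) (Q : Type u) [Group G] [Group Q] [Finite Q] (π : G →* Q) (g t : G), π t = 1 →
  (∀ i : Q, i ∈ Subgroup.zpowers (π g)) → 3 ≤ Nat.card Q →
  ∃ x y : Q → G, (∀ i, π (x i) = i) ∧ (∀ i, π (y i) = i) ∧ x 1 = 1 ∧ y 1 = 1 ∧
    (∀ i, i ≠ (π g)⁻¹ → x i * y (i * π g * π g) = x (i * π g) * y (i * π g)) ∧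
    x (π g)⁻¹ * y (π g) = g * t * g ^ (Nat.card Q - 2) * t⁻¹ * (g ^ (Nat.card Q - 1))⁻¹

/-- The main step. -/
def S_STEP : Prop := ∀ (G : Type u) [Group G] [Finite G] (M : Subgroup G) [M.Normal] (g : G),
  Odd (Nat.card (G ⧸ M)) → (∀ i : G ⧸ M, i ∈ Subgroup.zpowers (QuotientGroup.mk' M g)) → Full M → Full G

/-- Induction along a solvable quotient of odd order. -/
def S_IND : Prop := ∀ (G : Type u) [Group G] [Finite G] (N : Subgroup G) [N.Normal],
  Odd (Nat.card (G ⧸ N)) → IsSolvable (G ⧸ N) → Full N → Full G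

open Classical in
/-- Counting the symbols. -/
def S_CNT : Prop := ∀ (G : Type u) [Group G] [Finite G] (a b : G), a ≠ b →
  (Near G a b ↔ ∃ θ : Equiv.Perm G, ∀ s : G, {x : G | x * θ x = s}.ncard = if s = b then 0 else if s = a then 2 else 1)

/-- Transversals. -/
def S_TRV : Prop := ∀ (G : Type u) [Group G] [Finite G], Near G 1 1 ↔
  ∃ θ : Equiv.Perm G, Function.Bijective (fun x : G => x * θ x)

/-- Squares of abelian groups have transversals. -/
def S_SQU : Prop := ∀ (B : Type u) [CommGroup B] [Finite B], ∃ θ : Equiv.Perm (B × B),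
  Function.Bijective (fun x : B × B => x * θ x)

/-- Rank `n - 1`. -/
def S_RNK : Prop := ∀ (G : Type u) [Group G] [Finite G],
  (∃ θ : Equiv.Perm G, (Set.range fun x : G => x * θ x).ncard = Nat.card G - 1) ↔ ∃ a b : G, a ≠ b ∧ Near G a b

end Pool.Agent.Y382.NCH
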